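import Pool.Agent.H626Z.Frenet.Trig

set_option autoImplicit false

namespace Pool.Agent.Results.MP_f07be6_gt.AMuOne

open Pool.Agent.H626Z.Frenet

/-- For `n ≥ 4` the circle traversed once can be perturbed to a nondegenerate closed curve in
`ℝⁿ`, so `μ(n) = 1`. -/
theorem result (n : ℕ) (hn : 4 ≤ n) : IsLeast {m | 1 ≤ m ∧ Perturbable n m} 1 :=
  isLeast_mu n hn

end Pool.Agent.Results.MP_f07be6_gt.AMuOne
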