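import Pool.Agent.H626Z.Frenet.Trig
import Pool.Agent.H626Z.Frenet.Length

set_option autoImplicit false

namespace Pool.Agent.Results.MP_f07be6_gt.BLength

open Pool.Agent.H626Z.Frenet

/-- For `n ≥ 4` the Frenet frame of every nondegenerate closed curve in `ℝⁿ` is longer than
`2π μ(n)`. -/
theorem result (n : ℕ) (hn : 4 ≤ n) (γ : ℝ → EuclideanSpace ℝ (Fin n))
    (hγ : IsClosedCurve γ) (hnd : Nondegenerate γ) :
    2 * Real.pi * (mu n : ℝ) < frameLength γ := by
  rw [mu_eq_one n hn, Nat.cast_one, mul_one]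
  obtain ⟨m, rfl⟩ : ∃ m, n = m + 3 := ⟨n - 3, by omega⟩
  exact two_pi_lt_frameLength hγ hnd

end Pool.Agent.Results.MP_f07be6_gt.BLength
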